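import Pool.Agent.Helper56.Ulr.Final

namespace Pool.Agent.Results.MP_23dcb4_ag.ClosedInPrincipalOpen

open MvPolynomial Pool.Agent.Helper56.Disc Pool.Agent.Helper56.Ulr

/-- For all `n ≥ 2` and `d ≥ 3`: every `n`-tuple of forms of degree `d - 1` with nonzero resultant
has exactly one associated form, and there are a homogeneous `SL_n`-invariant `J` of positive
degree on the space of forms of degree `n (d - 2)` and a set `S` of polynomials such that the image
`U` of the associated form map is exactly the set of the forms where `J` does not vanish and all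
members of `S` vanish. So `U` is contained in `D(J)` and is Zariski closed in `D(J)`. -/
theorem result (n d : ℕ) (hn : 2 ≤ n) (hd : 3 ≤ d) :
    (∀ f : Fin n → MvPolynomial (Fin n) ℂ, IsRegularTuple (d - 1) f →
      ∃! F : MvPolynomial (Fin n) ℂ, IsAssociated d f F) ∧
    ∃ k : ℕ, 0 < k ∧ ∃ J : MvPolynomial (Mon n (n * (d - 2))) ℂ,
      ∃ S : Set (MvPolynomial (Mon n (n * (d - 2))) ℂ),
        J.IsHomogeneous k ∧ IsSLInvariant J ∧
        assocImage n d = {c | eval c J ≠ 0 ∧ ∀ s ∈ S, eval c s = 0} :=
  ⟨fun f hf => existsUnique_isAssociated hd f hf, main n d hn hd⟩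

end Pool.Agent.Results.MP_23dcb4_ag.ClosedInPrincipalOpen
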